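import Pool.Agent.Helper80.Stx.PairsOf
import Pool.Agent.Helper3.Stx.Slab

/-!
# MP_65a63f_X, row X9: pairs with two relations
-/

set_option autoImplicit false

namespace Stx

open Finset Stz

theorem pairs (A r H J N V b : ℕ) [NeZero A] (hN : 1 ≤ N) (hJ : 1 ≤ J) (hJN : J ≤ N) (hH : 1 ≤ H)
    (hV : 4 * r * H ^ 2 * J ≤ V) (hV' : 2 * N ≤ V) (hA : 8 * (N + 2 * H * J) < A)
    (a : ℕ → (Fin r → ℕ) → ℂ) (ha : nsq r (Icc (b + 1) (b + N)) N a ≤ 1)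
    (k k' : Fin r → ℤ) (hk : Ind k k') (hkH : ∀ l, |k l| ≤ H ∧ |k' l| ≤ H)
    (W : Finset (ZMod A × (Fin r → ZMod A))) (lam : ℝ) (hlam : 0 ≤ lam)
    (hW : ∀ w ∈ W, lam ≤ ‖F A r (Icc (b + 1) (b + N)) N a w.1 w.2‖)
    (ρ : ℝ) (hρ : ∀ z, ((A : ℝ)⁻¹) ^ r * (sec A r W z).card ≤ ρ) (τ : ℝ) (hτ : τ ≤ 1 / (2 * J)) :
    lam ^ 2 * Pr A r W k k' τ ≤ 10 * ρ / (J : ℝ) ^ 2 *
      ((A : ℝ)⁻¹ * ∑ u : ZMod A, U A V N u ^ (3 / 2 : ℝ)) :=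
  pairs_of A r H J N V b a k k' W lam hlam hW ρ hρ τ hτ fun c c' W' hW' hWc =>
    slab A r H J N V b hN hJ hJN hH hV hV' hA a ha k k' hk hkH c c' W' lam hlam hW' hWc

end Stx
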