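import Pool.Agent.Helper89.Stx.Defs

/-!
# MP_65a63f_X, row X9: pairs with two relations, from the slab estimate
-/

set_option autoImplicit false

namespace Stx

open Finset Stz

namespace Prs

lemma dt_sub {A r : ℕ} (k : Fin r → ℤ) (y y' : Fin r → ZMod A) :
    dt k (y - y') = dt k y - dt k y' := by
  simp only [dt, Pi.sub_apply, mul_sub, Finset.sum_sub_distrib]

lemma mem_sec (A r : ℕ) [NeZero A] (W : Finset (ZMod A × (Fin r → ZMod A))) (z : ZMod A)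
    (y : Fin r → ZMod A) : y ∈ sec A r W z ↔ (z, y) ∈ W := by
  classical
  unfold sec
  rw [mem_filter]
  simp

open scoped Classical in
/-- partners of `y` in the slice at `z` -/
noncomputable def part (A r : ℕ) [NeZero A] (W : Finset (ZMod A × (Fin r → ZMod A)))
    (k k' : Fin r → ℤ) (τ : ℝ) (z : ZMod A) (y : Fin r → ZMod A) : Finset (Fin r → ZMod A) :=
  (sec A r W z).filter fun y' => nrm A (dt k (y' - y)) ≤ τ ∧ nrm A (dt k' (y' - y)) ≤ τ

open scoped Classical in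
lemma exists_max (A r : ℕ) [NeZero A] (W : Finset (ZMod A × (Fin r → ZMod A)))
    (k k' : Fin r → ℤ) (τ : ℝ) : ∃ ys : ZMod A → (Fin r → ZMod A), ∀ z : ZMod A,
      ∑ y ∈ sec A r W z, ((part A r W k k' τ z y).card : ℝ) ≤
        ((sec A r W z).card : ℝ) * ((part A r W k k' τ z (ys z)).card : ℝ) := by
  have h : ∀ z : ZMod A, ∃ y0 : Fin r → ZMod A,
      ∑ y ∈ sec A r W z, ((part A r W k k' τ z y).card : ℝ) ≤
        ((sec A r W z).card : ℝ) * ((part A r W k k' τ z y0).card : ℝ) := by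
    intro z
    rcases (sec A r W z).eq_empty_or_nonempty with h0 | h0
    · refine ⟨0, ?_⟩
      rw [h0]
      simp
    · obtain ⟨y0, hy0, hm⟩ := exists_max_image (sec A r W z)
        (fun y => ((part A r W k k' τ z y).card : ℝ)) h0
      refine ⟨y0, ?_⟩
      have := sum_le_card_nsmul (sec A r W z) (fun y => ((part A r W k k' τ z y).card : ℝ))
        ((part A r W k k' τ z y0).card : ℝ) hm
      rwa [nsmul_eq_mul] at this
  choose ys hys using h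
  exact ⟨ys, hys⟩

end Prs

open Prs

open scoped Classical in
theorem pairs_of (A r H J N V b : ℕ) [NeZero A]
    (a : ℕ → (Fin r → ℕ) → ℂ)
    (k k' : Fin r → ℤ)
    (W : Finset (ZMod A × (Fin r → ZMod A))) (lam : ℝ) (hlam : 0 ≤ lam)
    (hW : ∀ w ∈ W, lam ≤ ‖F A r (Icc (b + 1) (b + N)) N a w.1 w.2‖)
    (ρ : ℝ) (hρ : ∀ z, ((A : ℝ)⁻¹) ^ r * (sec A r W z).card ≤ ρ) (τ : ℝ) (hτ : τ ≤ 1 / (2 * J))
    (slab : ∀ (c c' : ZMod A → ZMod A) (W : Finset (ZMod A × (Fin r → ZMod A))),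
      (∀ w ∈ W, lam ≤ ‖F A r (Icc (b + 1) (b + N)) N a w.1 w.2‖) →
      (∀ w ∈ W, nrm A (dt k w.2 - c w.1) ≤ 1 / (2 * J) ∧
        nrm A (dt k' w.2 - c' w.1) ≤ 1 / (2 * J)) →
      lam ^ 2 * mu A r W ≤ 10 / (J : ℝ) ^ 2 *
        ((A : ℝ)⁻¹ * ∑ u : ZMod A, U A V N u ^ (3 / 2 : ℝ))) :
    lam ^ 2 * Pr A r W k k' τ ≤ 10 * ρ / (J : ℝ) ^ 2 *
      ((A : ℝ)⁻¹ * ∑ u : ZMod A, U A V N u ^ (3 / 2 : ℝ)) := by
  have hA0 : (0 : ℝ) < (A : ℝ)⁻¹ := by
    have : 0 < A := Nat.pos_of_ne_zero (NeZero.ne A)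
    positivity
  have hρ0 : 0 ≤ ρ := le_trans (by positivity) (hρ 0)
  obtain ⟨ys, hys⟩ := exists_max A r W k k' τ
  set W' : Finset (ZMod A × (Fin r → ZMod A)) :=
    univ.filter fun w => w.2 ∈ part A r W k k' τ w.1 (ys w.1) with hW'
  have hsub : ∀ w ∈ W', w ∈ W ∧ nrm A (dt k (w.2 - ys w.1)) ≤ τ ∧
      nrm A (dt k' (w.2 - ys w.1)) ≤ τ := by
    intro w hw
    rw [hW', mem_filter] at hw
    have h2 := hw.2
    unfold part at h2
    rw [mem_filter, mem_sec] at h2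
    exact h2
  have hs := slab (fun z => dt k (ys z)) (fun z => dt k' (ys z)) W'
    (fun w hw => hW w (hsub w hw).1)
    (fun w hw => by
      obtain ⟨-, h1, h2⟩ := hsub w hw
      rw [dt_sub] at h1 h2
      exact ⟨h1.trans hτ, h2.trans hτ⟩)
  -- cardinality of `W'`
  have hcard : (W'.card : ℝ) = ∑ z : ZMod A, ((part A r W k k' τ z (ys z)).card : ℝ) := by
    rw [hW', card_filter]
    push_cast
    rw [Fintype.sum_prod_type]
    refine sum_congr rfl fun z _ => ?_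
    rw [sum_boole]
    congr 2
    ext y
    simp
  -- the sum
  have hPr : Pr A r W k k' τ = (A : ℝ)⁻¹ * ∑ z : ZMod A, ((A : ℝ)⁻¹) ^ (2 * r) *
      ∑ y ∈ sec A r W z, ((part A r W k k' τ z y).card : ℝ) := by
    unfold Pr
    congr 1
    refine sum_congr rfl fun z _ => ?_
    congr 1
    refine sum_congr rfl fun y _ => ?_
    unfold part
    rw [card_filter]
    push_cast
    rfl
  have hle : Pr A r W k k' τ ≤ ρ * mu A r W' := by
    rw [hPr]
    unfold mu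
    rw [hcard, div_eq_mul_inv, ← inv_pow, pow_succ]
    have e1 : ρ * ((∑ z : ZMod A, ((part A r W k k' τ z (ys z)).card : ℝ)) *
        ((A : ℝ)⁻¹ ^ r * (A : ℝ)⁻¹)) = (A : ℝ)⁻¹ * ∑ z : ZMod A, ρ * (A : ℝ)⁻¹ ^ r *
          ((part A r W k k' τ z (ys z)).card : ℝ) := by
      rw [← mul_sum]
      ring
    rw [e1]
    refine mul_le_mul_of_nonneg_left (sum_le_sum fun z _ => ?_) hA0.le
    have e2 : ((A : ℝ)⁻¹) ^ (2 * r) = ((A : ℝ)⁻¹) ^ r * ((A : ℝ)⁻¹) ^ r := by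
      rw [two_mul, pow_add]
    calc ((A : ℝ)⁻¹) ^ (2 * r) * ∑ y ∈ sec A r W z, ((part A r W k k' τ z y).card : ℝ)
        ≤ ((A : ℝ)⁻¹) ^ (2 * r) * (((sec A r W z).card : ℝ) *
            ((part A r W k k' τ z (ys z)).card : ℝ)) :=
          mul_le_mul_of_nonneg_left (hys z) (by positivity)
      _ = (((A : ℝ)⁻¹) ^ r * ((sec A r W z).card : ℝ)) *
            (((A : ℝ)⁻¹) ^ r * ((part A r W k k' τ z (ys z)).card : ℝ)) := by rw [e2]; ring
      _ ≤ ρ * (((A : ℝ)⁻¹) ^ r * ((part A r W k k' τ z (ys z)).card : ℝ)) :=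
          mul_le_mul_of_nonneg_right (hρ z) (by positivity)
      _ = ρ * (A : ℝ)⁻¹ ^ r * ((part A r W k k' τ z (ys z)).card : ℝ) := by ring
  calc lam ^ 2 * Pr A r W k k' τ ≤ lam ^ 2 * (ρ * mu A r W') :=
        mul_le_mul_of_nonneg_left hle (by positivity)
    _ = ρ * (lam ^ 2 * mu A r W') := by ring
    _ ≤ ρ * (10 / (J : ℝ) ^ 2 * ((A : ℝ)⁻¹ * ∑ u : ZMod A, U A V N u ^ (3 / 2 : ℝ))) :=
        mul_le_mul_of_nonneg_left hs hρ0
    _ = 10 * ρ / (J : ℝ) ^ 2 * ((A : ℝ)⁻¹ * ∑ u : ZMod A, U A V N u ^ (3 / 2 : ℝ)) := by ring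

end Stx
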